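import Mathlib
import Pool.Agent.MP_591151_lc.Defs
import Pool.Agent.MP_591151_lc.Lf.M

namespace Pool.Agent.Results.MP_591151_lc.FiniteOutdegree

open Pool.Agent.MP_591151_lc

theorem result (X : Type) [MeasurableSpace X] [StandardBorelSpace X] (G : SimpleGraph X)
    (hG : MeasurableSet {p : X × X | G.Adj p.1 p.2})
    (hc : ∀ x, (G.neighborSet x).Countable)
    (hO : ∃ O : Set (X × X), MeasurableSet O ∧ (∀ x, {y | (x, y) ∈ O}.Finite) ∧
      ∀ x y, G.Adj x y → (x, y) ∈ O ∨ (y, x) ∈ O)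
    (hD : distNumber G ≤ Cardinal.aleph0) : borelDistNumber G ≤ Cardinal.aleph0 :=
  Pool.Agent.MP_591151_lc.Lf.main hG hc hO hD

end Pool.Agent.Results.MP_591151_lc.FiniteOutdegree
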