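import Mathlib
import Pool.Agent.MP_591151_lc.Defs
import Pool.Agent.Mg.F591151.Gf17845

namespace Pool.Agent.Results.MP_591151_lc.FiniteVsContinuum

open Pool.Agent.MP_591151_lc

theorem result :
    ∃ (X : Type) (_ : MeasurableSpace X) (_ : StandardBorelSpace X) (G : SimpleGraph X),
      MeasurableSet {p : X × X | G.Adj p.1 p.2} ∧ distNumber G = 2 ∧
        borelDistNumber G = Cardinal.continuum :=
  Pool.Agent.MP_591151_lc.main

end Pool.Agent.Results.MP_591151_lc.FiniteVsContinuum
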