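import Mathlib
import Pool.Agent.MP_591151_lc.Defs
import Pool.Agent.MP_591151_lc.Sm.Mn

namespace Pool.Agent.Results.MP_591151_lc.SmoothBoundedGap

open Pool.Agent.MP_591151_lc

theorem result :
    ∃ (X : Type) (_ : MeasurableSpace X) (_ : StandardBorelSpace X) (G : SimpleGraph X),
      MeasurableSet {p : X × X | G.Adj p.1 p.2} ∧
      (∃ d : ℕ, ∀ x, (G.neighborSet x).encard ≤ d) ∧
      (∃ f : X → ℕ → Bool, Measurable f ∧ ∀ x x', G.Reachable x x' ↔ f x = f x') ∧
      (∀ x, {x' | G.Reachable x x'}.Infinite) ∧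
      distNumber G = 2 ∧ borelDistNumber G = 3 :=
  Pool.Agent.MP_591151_lc.Sm.main

end Pool.Agent.Results.MP_591151_lc.SmoothBoundedGap
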